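import Pool.Agent.H862R2.ChromRatioMain

set_option autoImplicit false

/-!
Clique-number bound on the ratio `P(G, lam - 1) / P(G, lam)` for integers `lam ≥ |V(G)|`.
-/

namespace Pool.Agent.Results.MP_31cced_co.CliqueRatio

universe u

/-- For every finite simple graph `G` on `n` vertices with clique number `ω` and every positive
integer `lam ≥ n`, the number of proper colourings with `lam` colours is positive and
`P(G, lam - 1) / P(G, lam) ≤ (1 - ω / lam) (1 - 1 / lam) ^ (n - ω)`. -/
theorem result (V : Type u) [Fintype V] (G : SimpleGraph V) (lam : ℕ) (hlam : 0 < lam)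
    (h : Fintype.card V ≤ lam) :
    0 < Nat.card (G.Coloring (Fin lam)) ∧
    (Nat.card (G.Coloring (Fin (lam - 1))) : ℝ) / (Nat.card (G.Coloring (Fin lam)) : ℝ)
      ≤ (1 - (G.cliqueNum : ℝ) / (lam : ℝ))
        * (1 - 1 / (lam : ℝ)) ^ (Fintype.card V - G.cliqueNum) := by
  classical
  obtain ⟨p, rfl⟩ : ∃ p, lam = p + 1 := ⟨lam - 1, by omega⟩
  have hpos : 0 < Nat.card (G.Coloring (Fin (p + 1))) := by
    rw [H862R2.Chrom.card_coloring]
    have h1 := H862R2.Chrom.P_pos' G Finset.univ ((p + 1 : ℕ) : ℝ) (by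
      rw [Finset.card_univ]
      have : (Fintype.card V : ℝ) ≤ ((p + 1 : ℕ) : ℝ) := by exact_mod_cast h
      linarith)
    rw [H862R2.Chrom.P_nat] at h1
    exact_mod_cast h1
  refine ⟨hpos, ?_⟩
  obtain ⟨K, hK⟩ := G.exists_isNClique_cliqueNum
  have hclq : H862R2.Chrom.Clq G K := fun a ha b hb hab =>
    hK.isClique (Finset.mem_coe.2 ha) (Finset.mem_coe.2 hb) hab
  have hmain := H862R2.Chrom.ratio_main G p _ Finset.univ K rfl (Finset.subset_univ K) hclq
    (by rw [Finset.card_univ]; exact h)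
  have hcard : (Finset.univ \ K).card = Fintype.card V - G.cliqueNum := by
    rw [Finset.card_sdiff_of_subset (Finset.subset_univ K), Finset.card_univ, hK.card_eq]
  rw [hcard, hK.card_eq, ← H862R2.Chrom.card_coloring, ← H862R2.Chrom.card_coloring] at hmain
  have hpos' : (0 : ℝ) < (Nat.card (G.Coloring (Fin (p + 1))) : ℝ) := by exact_mod_cast hpos
  rw [div_le_iff₀ hpos']
  have e : p + 1 - 1 = p := rfl
  rw [e]
  push_cast
  exact hmain

end Pool.Agent.Results.MP_31cced_co.CliqueRatio
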